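import Pool.Agent.MTO.Stmts

set_option autoImplicit false

namespace Pool.Agent.MTO.H27

open Matrix Pool.Agent.MTF Pool.Agent.MTO

theorem third : ∀ k j : Fin 3, k ≠ j → ∃ i : Fin 3, i ≠ j ∧ i ≠ k := by decide

theorem other : ∀ k : Fin 3, ∃ i : Fin 3, i ≠ k := by decide

theorem ext (hW : WedStmt) : ExtStmt := by
  intro d _ _ Ψ hs hdet g hbr hle hirr w horth hq hww
  obtain ⟨h1, h2, h3, h4, h5, h6, h7, _, _⟩ := hW d Ψ hs
  have hadd2 : ∀ a b b' : d → ℂ, wd Ψ a (b + b') = wd Ψ a b + wd Ψ a b' := by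
    intro a b b'
    rw [h5 (b + b') a, h6, h5 b a, h5 b' a, neg_add]
  have hsmul2 : ∀ (t : ℂ) (a b : d → ℂ), wd Ψ a (t • b) = t • wd Ψ a b := by
    intro t a b
    rw [h5 (t • b) a, h7, h5 b a, smul_neg]
  have hneg1 : ∀ a b : d → ℂ, wd Ψ (-a) b = -wd Ψ a b := by
    intro a b
    have h := h7 (-1) a b
    rw [neg_one_smul, neg_one_smul] at h
    exact h
  have hneg2 : ∀ a b : d → ℂ, wd Ψ a (-b) = -wd Ψ a b := by
    intro a b
    have h := hsmul2 (-1) a b
    rw [neg_one_smul, neg_one_smul] at h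
    exact h
  have hsub1 : ∀ a a' b : d → ℂ, wd Ψ (a - a') b = wd Ψ a b - wd Ψ a' b := by
    intro a a' b
    rw [sub_eq_add_neg, h6, hneg1, sub_eq_add_neg]
  have hsub2 : ∀ a b b' : d → ℂ, wd Ψ a (b - b') = wd Ψ a b - wd Ψ a b' := by
    intro a b b'
    rw [sub_eq_add_neg, hadd2, hneg2, sub_eq_add_neg]
  have hcancel : ∀ (t : ℂ) (M : Matrix d d ℂ), t ≠ 0 → t • M ∈ g → M ∈ g := by
    intro t M ht hM
    have h := g.smul_mem t⁻¹ hM
    rw [smul_smul, inv_mul_cancel₀ ht, one_smul] at h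
    exact h
  -- the products with the vectors `w`
  have key : ∀ X ∈ g, ∀ k j : Fin 3, wd Ψ (w k) (X *ᵥ w j) ∈ g := by
    intro X hX
    have T : ∀ i j : Fin 3, wd Ψ (w i) (X *ᵥ w j) - wd Ψ (w j) (X *ᵥ w i) ∈ g := by
      intro i j
      have h := hbr X hX _ (hww i j)
      rw [h3 X (hle hX), h5 (w j) (X *ᵥ w i)] at h
      rw [sub_eq_add_neg, add_comm]
      exact h
    have EW : ∀ a b k : Fin 3, ∀ z : d → ℂ, wd Ψ (w k) (wd Ψ (w a) (w b) *ᵥ z) ∈ g := by
      intro a b k z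
      rw [h1, hsub2, hsmul2, hsmul2]
      exact g.sub_mem (g.smul_mem _ (hww k a)) (g.smul_mem _ (hww k b))
    have E1 : ∀ k i : Fin 3, k ≠ i → wd Ψ (w k) (w i) *ᵥ w i = (w i ⬝ᵥ (Ψ *ᵥ w i)) • w k := by
      intro k i hki
      rw [h1, horth k i hki, zero_smul, sub_zero]
    have E0 : ∀ k i j : Fin 3, k ≠ j → i ≠ j → wd Ψ (w k) (w i) *ᵥ w j = 0 := by
      intro k i j hkj hij
      rw [h1, horth k j hkj, horth i j hij, zero_smul, zero_smul, sub_zero]
    have off : ∀ k j : Fin 3, k ≠ j → wd Ψ (w k) (X *ᵥ w j) ∈ g := by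
      intro k j hkj
      obtain ⟨i, hij, hik⟩ := third k j hkj
      have h := hbr _ (hww k i) _ (T i j)
      rw [mul_sub, sub_mul, sub_sub_sub_comm, h3 _ (h2 (w k) (w i)) (w i) (X *ᵥ w j),
        h3 _ (h2 (w k) (w i)) (w j) (X *ᵥ w i), E1 k i hik.symm, E0 k i j hkj hij] at h
      have h0 : wd Ψ 0 (X *ᵥ w i) = 0 := by
        have h0 := h7 0 0 (X *ᵥ w i)
        rw [zero_smul, zero_smul] at h0
        exact h0
      rw [h0, zero_add, h7] at h
      apply hcancel _ _ (hq i)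
      have h' := g.add_mem (g.sub_mem h (EW k i i (X *ᵥ w j))) (EW k i j (X *ᵥ w i))
      have e : ∀ A B C : Matrix d d ℂ, A + B - C - B + C = A := by
        intro A B C; abel
      rw [e] at h'
      exact h'
    intro k j
    by_cases hkj : k = j
    · subst hkj
      obtain ⟨i, hik⟩ := other k
      have h := hbr _ (hww k i) _ (off i k hik)
      rw [h3 _ (h2 (w k) (w i)), E1 k i hik.symm, h7] at h
      apply hcancel _ _ (hq i)
      have h' := g.sub_mem h (EW k i i (X *ᵥ w k))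
      rw [add_sub_cancel_right] at h'
      exact h'
    · exact off k j hkj
  have both : ∀ x y : d → ℂ, (∀ j, wd Ψ (w j) x ∈ g) → (∀ j, wd Ψ (w j) y ∈ g) →
      wd Ψ x y ∈ g := by
    intro x y hx hy
    have h := hbr _ (hx 0) _ (hy 0)
    rw [h3 _ (h2 (w 0) x), h1 (w 0) x (w 0), h1 (w 0) x y, hsub1, hsub2, h7, h7, hsmul2,
      hsmul2] at h
    apply hcancel _ _ (hq 0)
    have h' := g.sub_mem (g.add_mem (g.smul_mem (x ⬝ᵥ (Ψ *ᵥ w 0)) (hy 0))
      (g.sub_mem (g.smul_mem (x ⬝ᵥ (Ψ *ᵥ y)) (hww 0 0))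
        (g.smul_mem (w 0 ⬝ᵥ (Ψ *ᵥ y)) (hx 0)))) h
    have e : ∀ A B C D : Matrix d d ℂ, A + (B - C) - (A - D + (B - C)) = D := by
      intro A B C D; abel
    rw [e] at h'
    exact h'
  let U : Submodule ℂ (d → ℂ) :=
    { carrier := {x | ∀ j, wd Ψ (w j) x ∈ g}
      add_mem' := by
        intro a b ha hb j
        rw [hadd2]
        exact g.add_mem (ha j) (hb j)
      zero_mem' := by
        intro j
        have h0 := hsmul2 0 (w j) 0
        rw [zero_smul, zero_smul] at h0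
        rw [h0]
        exact g.zero_mem
      smul_mem' := by
        intro t a ha j
        rw [hsmul2]
        exact g.smul_mem _ (ha j) }
  have hU : MTF.Stab g U := by
    intro X hX x hx j
    have h := hbr X hX _ (hx j)
    rw [h3 X (hle hX)] at h
    have h' := g.sub_mem h (both (X *ᵥ w j) x (fun k => key X hX k j) hx)
    rw [add_sub_cancel_left] at h'
    exact h'
  have hUtop : U = ⊤ := by
    rcases hirr U hU with h | h
    · exfalso
      have h0 : w 0 ∈ U := fun j => hww j 0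
      rw [h, Submodule.mem_bot] at h0
      apply hq 0
      rw [h0, zero_dotProduct]
    · exact h
  have hall : ∀ x y : d → ℂ, wd Ψ x y ∈ g := by
    intro x y
    have hx : x ∈ U := by rw [hUtop]; exact Submodule.mem_top
    have hy : y ∈ U := by rw [hUtop]; exact Submodule.mem_top
    exact both x y hx hy
  refine (h4 hdet).trans (Submodule.span_le.mpr ?_)
  rintro X ⟨a, b, rfl⟩
  exact hall a b

end Pool.Agent.MTO.H27
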